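import Pool.Agent.H49.HR6

set_option autoImplicit false

namespace Pool.Agent.Results.MP_5317c0_an.NoNoYes

open Pool.Agent.H49.HR TopologicalSpace

theorem result :
    (∃ (Y : Type) (_ : TopologicalSpace Y) (_ : CompactSpace Y) (_ : MetrizableSpace Y)
      (S : Y ≃ₜ Y), RecTrans Y S ∧ HilbertSys Y S ∧ ¬ Rep ℂ Y S ∧
      ∀ (X : Type) [TopologicalSpace X] [CompactSpace X] [T2Space X] (T : X ≃ₜ X),
        Rep ℂ X T → ¬ GroupFactor T S) ∧
    (∀ (Y : Type) [TopologicalSpace Y] [CompactSpace Y] [MetrizableSpace Y] (S : Y ≃ₜ Y),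
      HilbertSys Y S →
      ∃ (X : Type) (_ : TopologicalSpace X) (_ : CompactSpace X) (_ : MetrizableSpace X)
        (T : X ≃ₜ X), Rep ℂ X T ∧ ∃ π : X → Y, Factor T S π ∧ AlmostOneOne π) := by
  refine ⟨?_, almost_cover⟩
  obtain ⟨f, _, hn, h1, h2, -, -, -, hN⟩ := main
  exact ⟨Xf f, inferInstance, inferInstance, inferInstance, sig f, h1, ⟨_, sig_trans f, h2⟩,
    fun h => not_subsingleton _ (nil_factor (sig_trans f) hN (factor_id _)
      (noChain_group h (groupFactor_self _))),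
    fun X _ _ _ T h hg => not_subsingleton _ (nil_factor (sig_trans f) hN (factor_id _)
      (noChain_group h hg))⟩

end Pool.Agent.Results.MP_5317c0_an.NoNoYes
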